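import Pool.Agent.W37.SG.Stm2

/-!
MP_9a3597_al, project SG, part J1: finite dimensional spaces of power series closed under the
derivative and the bracket.
-/

set_option autoImplicit false

namespace Pool.Agent.W91.SG

open PowerSeries

lemma two_C (F : Type) [Field F] : (2 : F⟦X⟧) = C (2 : F) := (map_ofNat (C (R := F)) 2).symm

lemma exists_bound {F : Type} [Field F] (N : Submodule F F⟦X⟧) (hN : FiniteDimensional F N) :
    ∃ k : ℕ, ∀ f ∈ N, (∀ j < k, coeff j f = 0) → f = 0 := by
  have := hN
  let K : ℕ →o (Submodule F N)ᵒᵈ :=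
    { toFun := fun k => OrderDual.toDual
        { carrier := {f : N | ∀ j < k, coeff j (f : F⟦X⟧) = 0}
          zero_mem' := by intro j _; simp
          add_mem' := by
            intro a b ha hb j hj
            simp [ha j hj, hb j hj]
          smul_mem' := by
            intro c a ha j hj
            simp [ha j hj] }
      monotone' := by
        intro a b hab f hf j hj
        exact hf j (lt_of_lt_of_le hj hab) }
  obtain ⟨k, hk⟩ := IsArtinian.monotone_stabilizes K
  refine ⟨k, fun f hf h => ?_⟩
  ext j
  have h1 : (⟨f, hf⟩ : N) ∈ OrderDual.ofDual (K k) := h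
  rw [hk (max k (j + 1)) (le_max_left _ _)] at h1
  have h2 := h1 j (lt_of_lt_of_le (Nat.lt_succ_self j) (le_max_right _ _))
  simpa using h2

/-- there is a maximal order `m` -/
lemma exists_max {F : Type} [Field F] (N : Submodule F F⟦X⟧) (hN : FiniteDimensional F N)
    (h1 : (1 : F⟦X⟧) ∈ N) : ∃ m : ℕ, (∀ f ∈ N, (∀ j < m + 1, coeff j f = 0) → f = 0) ∧
      ∃ f ∈ N, (∀ j < m, coeff j f = 0) ∧ coeff m f = 1 := by
  classical
  have hb := exists_bound N hN
  set k := Nat.find hb with hk
  have hk0 : k ≠ 0 := by
    intro h0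
    have := Nat.find_spec hb
    rw [← hk, h0] at this
    exact one_ne_zero (this 1 h1 (fun j hj => absurd hj (Nat.not_lt_zero j)))
  obtain ⟨m, hm⟩ := Nat.exists_eq_succ_of_ne_zero hk0
  have hP : ∀ f ∈ N, (∀ j < m + 1, coeff j f = 0) → f = 0 := by
    have := Nat.find_spec hb
    rw [← hk, hm] at this
    exact this
  refine ⟨m, hP, ?_⟩
  have hn := Nat.find_min hb (m := m) (by rw [← hk, hm]; exact Nat.lt_succ_self m)
  push Not at hn
  obtain ⟨f, hf, h2, h3⟩ := hn
  have h4 : coeff m f ≠ 0 := by
    intro h5
    apply h3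
    apply hP f hf
    intro j hj
    rcases Nat.lt_succ_iff_lt_or_eq.mp hj with h | h
    · exact h2 j h
    · rw [h]; exact h5
  refine ⟨(coeff m f)⁻¹ • f, N.smul_mem _ hf, ?_, ?_⟩
  · intro j hj
    simp [h2 j hj]
  · simp [h4]

/-- the maximal order is at most `2` -/
lemma max_le_two {F : Type} [Field F] [CharZero F] (N : Submodule F F⟦X⟧)
    (hD : ∀ f ∈ N, PowerSeries.derivative F f ∈ N)
    (hB : ∀ f ∈ N, ∀ g ∈ N, f * PowerSeries.derivative F g - g * PowerSeries.derivative F f ∈ N)
    (m : ℕ) (hP : ∀ f ∈ N, (∀ j < m + 1, coeff j f = 0) → f = 0) (f : F⟦X⟧) (hf : f ∈ N)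
    (h0 : ∀ j < m, coeff j f = 0) (h1 : coeff m f = 1) : m ≤ 2 := by
  by_contra hcon
  obtain ⟨n, rfl⟩ : ∃ n, m = n + 3 := ⟨m - 3, by omega⟩
  obtain ⟨f', hf'⟩ := (X_pow_dvd_iff (n := n + 3) (φ := f)).mpr h0
  have hc : coeff 0 f' = 1 := by
    have := coeff_X_pow_mul f' (n + 3) 0
    rw [← hf', zero_add, h1] at this
    exact this.symm
  set D := PowerSeries.derivative F with hDdef
  set u : F⟦X⟧ := ((n + 3 : ℕ) : F⟦X⟧) * f' + X * D f' with hu
  have d1 : D f = X ^ (n + 2) * u := by
    rw [hf', hDdef, Derivation.leibniz, PowerSeries.derivative_pow, PowerSeries.derivative_X, hu]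
    simp only [smul_eq_mul, show n + 3 - 1 = n + 2 by omega]
    ring
  have d2 : D (D f) = X ^ (n + 1) * (((n + 2 : ℕ) : F⟦X⟧) * u + X * D u) := by
    rw [d1, hDdef, Derivation.leibniz, PowerSeries.derivative_pow, PowerSeries.derivative_X]
    simp only [smul_eq_mul, show n + 2 - 1 = n + 1 by omega]
    ring
  have hh := hB f hf (D f) (hD f hf)
  have e1 : f * D (D f) - D f * D f =
      X ^ (2 * n + 4) * (f' * (((n + 2 : ℕ) : F⟦X⟧) * u + X * D u) - u ^ 2) := by
    rw [d2, d1]
    nth_rewrite 1 [hf']
    ring
  have hz : f * D (D f) - D f * D f = 0 := by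
    apply hP _ hh
    have hdvd : X ^ (2 * n + 4) ∣ f * D (D f) - D f * D f := ⟨_, e1⟩
    intro j hj
    exact X_pow_dvd_iff.mp hdvd j (by omega)
  have hX : (X : F⟦X⟧) ^ (2 * n + 4) ≠ 0 := pow_ne_zero _ X_ne_zero
  rw [e1] at hz
  have hw := (mul_eq_zero.mp hz).resolve_left hX
  have hw0 := congrArg (coeff 0) hw
  have hcu : constantCoeff u = (n + 3 : F) := by
    rw [hu]
    simp only [map_add, map_mul, map_natCast, constantCoeff_X, zero_mul, add_zero]
    rw [← coeff_zero_eq_constantCoeff_apply, hc]
    push_cast
    ring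
  have hcf : constantCoeff f' = 1 := by
    rw [← coeff_zero_eq_constantCoeff_apply, hc]
  rw [coeff_zero_eq_constantCoeff_apply] at hw0
  simp only [map_sub, map_mul, map_add, map_pow, map_natCast, constantCoeff_X, zero_mul, add_zero,
    hcu, hcf, map_zero] at hw0
  push_cast at hw0
  have h5 : ((n : F) + 3) = 0 := by linear_combination -hw0
  have h6 : ((n + 3 : ℕ) : F) ≠ 0 := Nat.cast_ne_zero.mpr (by omega)
  apply h6
  push_cast
  exact h5

theorem main : Pool.Agent.W37.SG.S_J1 := by
  intro F _ _ N hN h1 hD hB
  obtain ⟨m, hP, f, hf, h0, hfm⟩ := exists_max N hN h1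
  have hm := max_le_two N hD hB m hP f hf h0 hfm
  have c1 : ∀ j : ℕ, coeff j (1 : F⟦X⟧) = if j = 0 then 1 else 0 := fun j => coeff_one j
  interval_cases m
  · -- order `0`
    left
    apply le_antisymm
    · intro g hg
      have h2 : g - coeff 0 g • (1 : F⟦X⟧) = 0 := by
        apply hP _ (N.sub_mem hg (N.smul_mem _ h1))
        intro j hj
        obtain rfl : j = 0 := by omega
        simp
      rw [sub_eq_zero] at h2
      rw [h2]
      exact Submodule.smul_mem _ _ (Submodule.mem_span_singleton_self _)
    · rw [Submodule.span_le]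
      intro g hg
      rw [Set.mem_singleton_iff] at hg
      rw [hg]; exact h1
  · -- order `1`
    right; left
    refine ⟨f, hf, h0 0 (by omega), hfm, ?_⟩
    apply le_antisymm
    · intro g hg
      have h2 : g - coeff 0 g • (1 : F⟦X⟧) - coeff 1 g • f = 0 := by
        apply hP _ (N.sub_mem (N.sub_mem hg (N.smul_mem _ h1)) (N.smul_mem _ hf))
        intro j hj
        have h3 := h0 0 (by omega)
        obtain rfl | rfl : j = 0 ∨ j = 1 := by omega
        · simp only [map_sub, map_smul, c1, smul_eq_mul, if_true, h3]; ring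
        · simp only [map_sub, map_smul, c1, smul_eq_mul, one_ne_zero, if_false, hfm]; ring
      rw [Submodule.mem_span_pair]
      exact ⟨coeff 0 g, coeff 1 g, by linear_combination -h2⟩
    · rw [Submodule.span_le]
      intro g hg
      rcases hg with rfl | rfl
      · exact h1
      · exact hf
  · -- order `2`
    right; right
    set D := PowerSeries.derivative F with hDdef
    have f0 := h0 0 (by omega)
    have f1 := h0 1 (by omega)
    have two : (2 : F) ≠ 0 := two_ne_zero
    set e : F⟦X⟧ := (2 : F)⁻¹ • D f with he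
    have heN : e ∈ N := N.smul_mem _ (hD f hf)
    have cD : ∀ (g : F⟦X⟧) (j : ℕ), coeff j (D g) = coeff (j + 1) g * (j + 1) :=
      fun g j => PowerSeries.coeff_derivative g j
    have e0 : coeff 0 e = 0 := by
      rw [he, map_smul, cD, f1]; simp
    have e1 : coeff 1 e = 1 := by
      rw [he, map_smul, cD, hfm, smul_eq_mul]
      push_cast
      field_simp
      norm_num
    have hDf : D f = 2 * e := by
      have : (2 : F⟦X⟧) * e = (2 : F) • e := by
        rw [two_C F, ← smul_eq_C_mul]
      rw [this, he, smul_smul, mul_inv_cancel₀ two, one_smul]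
    -- expansion of elements of `N`
    have hexp : ∀ g ∈ N, g = coeff 0 g • (1 : F⟦X⟧) + coeff 1 g • e +
        (coeff 2 g - coeff 1 g * coeff 2 e) • f := by
      intro g hg
      have h2 : g - (coeff 0 g • (1 : F⟦X⟧) + coeff 1 g • e +
          (coeff 2 g - coeff 1 g * coeff 2 e) • f) = 0 := by
        apply hP _ (N.sub_mem hg (N.add_mem (N.add_mem (N.smul_mem _ h1) (N.smul_mem _ heN))
          (N.smul_mem _ hf)))
        intro j hj
        obtain rfl | rfl | rfl : j = 0 ∨ j = 1 ∨ j = 2 := by omega
        · simp only [map_sub, map_add, map_smul, c1, smul_eq_mul, if_true, e0, f0]; ring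
        · simp only [map_sub, map_add, map_smul, c1, smul_eq_mul, one_ne_zero, if_false, e1, f1]
          ring
        · simp only [map_sub, map_add, map_smul, c1, smul_eq_mul, OfNat.ofNat_ne_zero, if_false,
            hfm]
          ring
      exact sub_eq_zero.mp h2
    -- the bracket
    have hbr : e * D f - f * D e = f := by
      have hmem := hB e heN f hf
      obtain ⟨e', he'⟩ := (X_pow_dvd_iff (n := 1) (φ := e)).mpr (fun j hj => by
        obtain rfl : j = 0 := by omega
        exact e0)
      obtain ⟨f', hf'⟩ := (X_pow_dvd_iff (n := 2) (φ := f)).mpr h0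
      have ce' : constantCoeff e' = 1 := by
        have := coeff_X_pow_mul e' 1 0
        rw [← he', zero_add, e1] at this
        rw [← coeff_zero_eq_constantCoeff_apply]
        exact this.symm
      have cf' : constantCoeff f' = 1 := by
        have := coeff_X_pow_mul f' 2 0
        rw [← hf', zero_add, hfm] at this
        rw [← coeff_zero_eq_constantCoeff_apply]
        exact this.symm
      have cDe : constantCoeff (D e) = 1 := by
        rw [← coeff_zero_eq_constantCoeff_apply, cD, e1]; simp
      have hz : e * D f - f * D e - f = X ^ 2 * (2 * e' ^ 2 - f' * D e - f') := by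
        rw [hDf]
        have a1 : e * (2 * e) = X ^ 2 * (2 * e' ^ 2) := by
          nth_rewrite 1 [he']
          nth_rewrite 1 [he']
          ring
        have a2 : f * D e = X ^ 2 * (f' * D e) := by
          nth_rewrite 1 [hf']
          ring
        rw [a1, a2]
        nth_rewrite 1 [hf']
        ring
      have hzero : e * D f - f * D e - f = 0 := by
        apply hP _ (N.sub_mem hmem hf)
        intro j hj
        rcases Nat.lt_succ_iff_lt_or_eq.mp hj with h | h
        · exact X_pow_dvd_iff.mp ⟨_, hz⟩ j h
        · subst h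
          rw [hz]
          have := coeff_X_pow_mul (2 * e' ^ 2 - f' * D e - f') 2 0
          rw [zero_add] at this
          rw [this, coeff_zero_eq_constantCoeff_apply]
          simp only [map_sub, map_mul, map_pow, ce', cf', cDe]
          have : constantCoeff (2 : F⟦X⟧) = (2 : F) := by rw [two_C F, constantCoeff_C]
          rw [this]
          norm_num
      exact sub_eq_zero.mp hzero
    -- expansion of `D e`
    set γ : F := coeff 1 (D e) with hγ
    set β : F := coeff 2 (D e) - coeff 1 (D e) * coeff 2 e with hβ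
    have hDe : D e = 1 + C γ * e + C β * f := by
      have := hexp (D e) (hD e heN)
      rw [cD e 0, zero_add, e1, Nat.cast_zero, zero_add, mul_one, one_smul] at this
      rw [this, ← smul_eq_C_mul, ← smul_eq_C_mul, ← hγ]
    have hDDe : D (D e) = C γ * D e + C β * D f := by
      conv_lhs => rw [hDe]
      rw [map_add, map_add, hDdef, Derivation.leibniz, Derivation.leibniz,
        PowerSeries.derivative_C, PowerSeries.derivative_C, Derivation.map_one_eq_zero]
      simp only [smul_eq_mul, mul_zero, add_zero, zero_add]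
    have hγf : C γ * f = 0 := by
      have a1 := congrArg D hbr
      rw [map_sub, hDdef, Derivation.leibniz, Derivation.leibniz, ← hDdef] at a1
      simp only [smul_eq_mul] at a1
      have a2 : D (D f) = 2 * D e := by
        rw [hDf, hDdef, Derivation.leibniz]
        have : PowerSeries.derivative F (2 : F⟦X⟧) = 0 := by
          rw [two_C F, PowerSeries.derivative_C]
        rw [this]
        simp
      rw [a2, hDDe, hDf] at a1
      rw [hDf] at hbr
      -- a1 : e * (2 * De) + 2 * e * De - (f * (γ De + β 2 e) + De * (2 e)) = 2 e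
      have a3 : C γ * (e * (2 * e) - f * D e) = 0 := by
        linear_combination a1 - 2 * e * hDe
      rw [hbr] at a3
      exact a3
    have hγ0 : γ = 0 := by
      have := congrArg (coeff 2) hγf
      rw [coeff_C_mul, hfm] at this
      simpa using this
    have he2 : coeff 2 e = 0 := by
      rw [hγ, cD] at hγ0
      have h3 : ((1 : ℕ) : F) + 1 ≠ 0 := by
        push_cast
        rw [one_add_one_eq_two]
        exact two
      exact (mul_eq_zero.mp hγ0).resolve_right h3
    refine ⟨e, heN, f, hf, β, ?_, e0, e1, he2, f0, f1, hfm, ?_, hDf, hbr⟩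
    · apply le_antisymm
      · intro g hg
        rw [Submodule.mem_span_triple]
        exact ⟨coeff 0 g, coeff 1 g, coeff 2 g - coeff 1 g * coeff 2 e, (hexp g hg).symm⟩
      · rw [Submodule.span_le]
        intro g hg
        rcases hg with rfl | rfl | rfl
        · exact h1
        · exact heN
        · exact hf
    · rw [smul_eq_C_mul, hDe, hγ0]
      simp

end Pool.Agent.W91.SG
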